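import Pool.Agent.N249.LR.Aff

set_option autoImplicit false

/-!
# MP_4ae480: line-thick sets, lines tangent to two-dimensional paraboloids

Let `n = k + 3` and let `Σ = {(q, |q|², 0) : q ∈ ℝ²} ⊆ ℝ^n` be the two-dimensional paraboloid (in the
first three coordinates).  At `P ∈ Σ` consider the hyperplane `V_P` of the directions orthogonal to
the normal `(2 P_0, 2 P_1, -1, 0, ..., 0)`; it is the sum of the tangent plane of `Σ` and of
`W = 0 × ℝ^k`.  Let `(Σ_j, W_j)` be countably many affine images of `(Σ, W)`: arbitrary elliptic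
paraboloids in three-dimensional affine subspaces, with complementary linear subspaces.

If `K ⊆ ℝ^n` contains, for every direction `e` in a set of positive (outer) surface measure, a part of
positive length of a line parallel to `e` that passes through a point `P` of some `Σ_j` and is
contained in `P + T_P Σ_j + W_j`, then `dim_H K = n`.
-/

open MeasureTheory Set Metric
open scoped ENNReal

namespace Pool.Agent.Results.MP_4ae480_an.TangentLines

/-- Euclidean space `ℝ^n`. -/
abbrev E (n : ℕ) : Type := EuclideanSpace ℝ (Fin n)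

/-- The surface measure on the unit sphere. -/
noncomputable def surf (n : ℕ) : Measure (sphere (0 : E n) 1) := (volume : Measure (E n)).toSphere

/-- The two-dimensional paraboloid `{(q, |q|², 0)}` in `ℝ^(k+3)`. -/
def paraboloid (k : ℕ) : Set (E (k + 3)) :=
  {P | P 2 = P 0 ^ 2 + P 1 ^ 2 ∧ ∀ i : Fin (k + 3), 2 < i → P i = 0}

/-- The vector `f` is orthogonal to the normal `(2 P_0, 2 P_1, -1, 0, ..., 0)`. -/
def Tangent {k : ℕ} (P f : E (k + 3)) : Prop := f 2 = 2 * (P 0 * f 0 + P 1 * f 1)

/-- The line `{z + t e}` is the image under the affine automorphism `x ↦ L x + b` of a line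
`{P + t f}` through a point `P` of the paraboloid with a tangent direction `f`. -/
def IsTangentLine {k : ℕ} (L : E (k + 3) ≃ₗ[ℝ] E (k + 3)) (b z e : E (k + 3)) : Prop :=
  ∃ P ∈ paraboloid k, ∃ f : E (k + 3), Tangent P f ∧ L P + b = z ∧ L f = e

/-- **Kakeya sets of lines tangent to two-dimensional paraboloids have dimension `n`.** -/
theorem result (k : ℕ) (L : ℕ → (E (k + 3) ≃ₗ[ℝ] E (k + 3))) (b : ℕ → E (k + 3))
    (S : Set (sphere (0 : E (k + 3)) 1)) (hS : surf (k + 3) S ≠ 0) (K : Set (E (k + 3)))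
    (hK : ∀ e ∈ S, ∃ (j : ℕ) (z : E (k + 3)), IsTangentLine (L j) (b j) z e ∧
      volume {t : ℝ | z + t • (e : E (k + 3)) ∈ K} ≠ 0) :
    dimH K = ((k + 3 : ℕ) : ℝ≥0∞) := by
  refine Pool.Agent.N249.LR.dim_affine L b hS ?_
  intro e he
  obtain ⟨j, z, ⟨P, hP, f, hf, rfl, hLf⟩, hv⟩ := hK e he
  exact ⟨j, P, f, hP, hf, hLf, hv⟩

end Pool.Agent.Results.MP_4ae480_an.TangentLines
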